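import Pool.Agent.W770.PC.Stms
import Pool.Agent.H153R4.Pl

set_option autoImplicit false

/-!
# Project PC: Plancherel on the plane
-/

open MeasureTheory Set Filter Topology FourierTransform
open scoped ENNReal NNReal

namespace Pool.Agent.W770.PC

theorem planch_transform (U : ℝ × ℝ → ℂ) (x : ℝ × ℝ) :
    ∫ y, U y * ee (x.1 * y.1 + x.2 * y.2) =
      𝓕 (fun v : ℂ => U (Complex.measurableEquivRealProd v))
        ((-(2 * Real.pi)⁻¹ : ℝ) • (Complex.measurableEquivRealProd.symm x)) := by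
  rw [Real.fourier_eq']
  rw [← Complex.volume_preserving_equiv_real_prod.integral_comp
    Complex.measurableEquivRealProd.measurableEmbedding]
  refine integral_congr_ae (Filter.Eventually.of_forall fun v => ?_)
  have hpi : Real.pi ≠ 0 := Real.pi_ne_zero
  have h1 : -2 * Real.pi * inner ℝ v ((-(2 * Real.pi)⁻¹ : ℝ) •
      (Complex.measurableEquivRealProd.symm x)) = x.1 * v.re + x.2 * v.im := by
    rw [inner_smul_right, Complex.inner]
    have e1 : (Complex.measurableEquivRealProd.symm x).re = x.1 := rfl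
    have e2 : (Complex.measurableEquivRealProd.symm x).im = x.2 := rfl
    rw [Complex.mul_re, Complex.conj_re, Complex.conj_im, e1, e2]
    field_simp
    ring
  simp only
  rw [h1, smul_eq_mul, mul_comm]
  rfl

/-- **Plancherel** -/
theorem planch_thm : S_planch := by
  intro U hU hU2
  set e := Complex.measurableEquivRealProd with he
  have hmp : MeasurePreserving e volume volume := Complex.volume_preserving_equiv_real_prod
  set f : ℂ → ℂ := fun v => U (e v) with hf
  have hf1 : Integrable f := (hmp.integrable_comp_emb e.measurableEmbedding).2 hU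
  have hf2 : MemLp f 2 := hU2.comp_measurePreserving hmp
  have hcont : Continuous (𝓕 f) := by
    have := VectorFourier.fourierIntegral_continuous (L := innerₗ ℂ) Real.continuous_fourierChar
      continuous_inner hf1
    exact this
  have hr : (-(2 * Real.pi)⁻¹ : ℝ) ≠ 0 := by
    have := Real.pi_pos
    have : (2 * Real.pi)⁻¹ ≠ 0 := by positivity
    exact neg_ne_zero.2 this
  have hmeas : Measurable fun z : ℂ => ‖𝓕 f z‖ₑ ^ 2 := hcont.measurable.enorm.pow_const 2
  calc ∫⁻ x : ℝ × ℝ, ‖∫ y, U y * ee (x.1 * y.1 + x.2 * y.2)‖ₑ ^ 2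
      = ∫⁻ x : ℝ × ℝ, ‖𝓕 f ((-(2 * Real.pi)⁻¹ : ℝ) • e.symm x)‖ₑ ^ 2 := by
        refine lintegral_congr fun x => ?_
        rw [planch_transform]
    _ = ∫⁻ z : ℂ, ‖𝓕 f ((-(2 * Real.pi)⁻¹ : ℝ) • z)‖ₑ ^ 2 := by
        rw [← hmp.lintegral_comp_emb e.measurableEmbedding]
        simp
    _ = ENNReal.ofReal ((2 * Real.pi) ^ 2) * ∫⁻ z : ℂ, ‖𝓕 f z‖ₑ ^ 2 := by
        have h1 := Measure.map_addHaar_smul (volume : Measure ℂ) hr
        have h2 : ∫⁻ z : ℂ, ‖𝓕 f ((-(2 * Real.pi)⁻¹ : ℝ) • z)‖ₑ ^ 2 =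
            ∫⁻ z, ‖𝓕 f z‖ₑ ^ 2 ∂(Measure.map ((-(2 * Real.pi)⁻¹ : ℝ) • ·) (volume : Measure ℂ)) :=
          (lintegral_map hmeas (measurable_const_smul _)).symm
        rw [h2, h1, lintegral_smul_measure, Complex.finrank_real_complex, smul_eq_mul]
        congr 2
        rw [neg_sq, inv_pow, inv_inv, abs_of_nonneg (by positivity)]
    _ = ENNReal.ofReal ((2 * Real.pi) ^ 2) * ∫⁻ z : ℂ, ‖f z‖ₑ ^ 2 := by
        rw [Pool.Agent.H153R4.plancherel f hf1 hf2]
    _ = ENNReal.ofReal ((2 * Real.pi) ^ 2) * ∫⁻ y, ‖U y‖ₑ ^ 2 := by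
        rw [← hmp.lintegral_comp_emb e.measurableEmbedding (fun y => ‖U y‖ₑ ^ 2)]

end Pool.Agent.W770.PC
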