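import Pool.Agent.W770.PC.SphStms

set_option autoImplicit false

/-!
# Project PC: norm equivalences for the functions `A + B √(1 - |y|²)`
-/

open MeasureTheory Set Filter Topology
open scoped ENNReal NNReal

namespace Pool.Agent.W770.PC

/-- substitution of the second variable -/
noncomputable def sb1 (P : MvPolynomial (Fin 2) ℝ) (s : ℝ) : Polynomial ℝ :=
  MvPolynomial.aeval ![Polynomial.X, Polynomial.C s] P

/-- substitution of the first variable -/
noncomputable def sb2 (P : MvPolynomial (Fin 2) ℝ) (s : ℝ) : Polynomial ℝ :=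
  MvPolynomial.aeval ![Polynomial.C s, Polynomial.X] P

theorem sb1_eval (P : MvPolynomial (Fin 2) ℝ) (s u : ℝ) : (sb1 P s).eval u = pf P (u, s) := by
  unfold sb1 pf
  induction P using MvPolynomial.induction_on with
  | C a => simp
  | add p q hp hq => simp only [map_add, Polynomial.eval_add, hp, hq]
  | mul_X p i hp =>
    simp only [map_mul, Polynomial.eval_mul, hp, MvPolynomial.aeval_X, MvPolynomial.eval_X]
    fin_cases i <;> simp

theorem sb2_eval (P : MvPolynomial (Fin 2) ℝ) (s u : ℝ) : (sb2 P s).eval u = pf P (s, u) := by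
  unfold sb2 pf
  induction P using MvPolynomial.induction_on with
  | C a => simp
  | add p q hp hq => simp only [map_add, Polynomial.eval_add, hp, hq]
  | mul_X p i hp =>
    simp only [map_mul, Polynomial.eval_mul, hp, MvPolynomial.aeval_X, MvPolynomial.eval_X]
    fin_cases i <;> simp

theorem sb1_deg {P : MvPolynomial (Fin 2) ℝ} {D : ℕ} (h : P.totalDegree ≤ D) (s : ℝ) :
    (sb1 P s).natDegree ≤ D := by
  have := MvPolynomial.aeval_natDegree_le (n := 1) P h ![Polynomial.X, Polynomial.C s]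
    (fun i => by
      fin_cases i
      · exact Polynomial.natDegree_X_le
      · exact (Polynomial.natDegree_C s).le.trans zero_le_one)
  rw [mul_one] at this
  exact this

theorem sb2_deg {P : MvPolynomial (Fin 2) ℝ} {D : ℕ} (h : P.totalDegree ≤ D) (s : ℝ) :
    (sb2 P s).natDegree ≤ D := by
  have := MvPolynomial.aeval_natDegree_le (n := 1) P h ![Polynomial.C s, Polynomial.X]
    (fun i => by
      fin_cases i
      · exact (Polynomial.natDegree_C s).le.trans zero_le_one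
      · exact Polynomial.natDegree_X_le)
  rw [mul_one] at this
  exact this

theorem mem_U0 {u s : ℝ} (hu : |u| ≤ 3 / 8) (hs : |s| ≤ 3 / 8) : ((u, s) : ℝ × ℝ) ∈ U0 := by
  unfold U0
  rw [abs_le] at hu hs
  simp only [Set.mem_ofPred_eq]
  nlinarith

theorem c_bd {s : ℝ} (hs : |s| ≤ 3 / 8) : 3 / 4 ≤ 1 - s ^ 2 ∧ 1 - s ^ 2 ≤ 1 := by
  rw [abs_le] at hs
  constructor <;> nlinarith

theorem sf_rt1 (h2 : S_hh) (A B : MvPolynomial (Fin 2) ℝ) (s u : ℝ)
    (h : ((u, s) : ℝ × ℝ) ∈ U0) : sf A B (u, s) = rt (sb1 A s) (sb1 B s) (1 - s ^ 2) u := by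
  obtain ⟨h3, h4, -, -⟩ := h2.2.2.2.1 (u, s) h
  have h5 : hh (u, s) = Real.sqrt (1 - s ^ 2 - u ^ 2) := by
    rw [← Real.sqrt_sq h3.le, h4]
    congr 1
    ring
  unfold sf rt
  rw [sb1_eval, sb1_eval, h5]

theorem sf_rt2 (h2 : S_hh) (A B : MvPolynomial (Fin 2) ℝ) (s u : ℝ)
    (h : ((s, u) : ℝ × ℝ) ∈ U0) : sf A B (s, u) = rt (sb2 A s) (sb2 B s) (1 - s ^ 2) u := by
  obtain ⟨h3, h4, -, -⟩ := h2.2.2.2.1 (s, u) h
  have h5 : hh (s, u) = Real.sqrt (1 - s ^ 2 - u ^ 2) := by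
    rw [← Real.sqrt_sq h3.le, h4]
  unfold sf rt
  rw [sb2_eval, sb2_eval, h5]

theorem abs_in {w r v : ℝ} (hw : |w| + r ≤ 3 / 8) (hv : v ∈ Icc (w - r) (w + r)) :
    |v| ≤ 3 / 8 := by
  have h1 := le_abs_self w
  have h2 := neg_abs_le w
  rw [abs_le]
  constructor <;> linarith [hv.1, hv.2]

/-- one dimensional bounds in the first variable -/
theorem row {D : ℕ} {C : ℝ} (h1 : ∀ a b : Polynomial ℝ, a.natDegree ≤ D → b.natDegree ≤ D →
    ∀ c : ℝ, 3 / 4 ≤ c → c ≤ 1 → ∀ w r : ℝ, 0 < r → |w| + r ≤ 3 / 8 →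
    ∀ u : ℝ, |u| ≤ 3 / 8 → |u - w| ≤ 8 * r →
      |rt a b c u| ≤ C / r * ∫ v in Icc (w - r) (w + r), |rt a b c v| ∧
      |deriv (rt a b c) u| ≤ C / r ^ 2 * ∫ v in Icc (w - r) (w + r), |rt a b c v|)
    (h2 : S_hh) {A B : MvPolynomial (Fin 2) ℝ} (hA : A.totalDegree ≤ D) (hB : B.totalDegree ≤ D)
    {s : ℝ} (hs : |s| ≤ 3 / 8) {w r : ℝ} (hr : 0 < r) (hw : |w| + r ≤ 3 / 8) {u : ℝ}
    (hu : |u| ≤ 3 / 8) (huw : |u - w| ≤ 8 * r) :
    |sf A B (u, s)| ≤ C / r * (∫ v in Icc (w - r) (w + r), |sf A B (v, s)|) ∧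
    |d1 (sf A B) (u, s)| ≤ C / r ^ 2 * ∫ v in Icc (w - r) (w + r), |sf A B (v, s)| := by
  have h3 := h1 (sb1 A s) (sb1 B s) (sb1_deg hA s) (sb1_deg hB s) (1 - s ^ 2) (c_bd hs).1
    (c_bd hs).2 w r hr hw u hu huw
  have e1 : (∫ v in Icc (w - r) (w + r), |rt (sb1 A s) (sb1 B s) (1 - s ^ 2) v|) =
      ∫ v in Icc (w - r) (w + r), |sf A B (v, s)| := by
    refine setIntegral_congr_fun measurableSet_Icc fun v hv => ?_
    rw [sf_rt1 h2 A B s v (mem_U0 (abs_in hw hv) hs)]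
  have hU : ((u, s) : ℝ × ℝ) ∈ U0 := mem_U0 hu hs
  have e2 : d1 (sf A B) (u, s) = deriv (rt (sb1 A s) (sb1 B s) (1 - s ^ 2)) u := by
    unfold d1
    refine Filter.EventuallyEq.deriv_eq ?_
    have hc : Continuous fun x : ℝ => ((x, s) : ℝ × ℝ) := by fun_prop
    have h4 : ∀ᶠ x in 𝓝 u, ((x, s) : ℝ × ℝ) ∈ U0 :=
      hc.continuousAt.eventually (h2.2.2.1.mem_nhds hU)
    filter_upwards [h4] with x hx
    exact sf_rt1 h2 A B s x hx
  rw [e1] at h3
  rw [e2, sf_rt1 h2 A B s u hU]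
  exact h3

/-- one dimensional bounds in the second variable -/
theorem col {D : ℕ} {C : ℝ} (h1 : ∀ a b : Polynomial ℝ, a.natDegree ≤ D → b.natDegree ≤ D →
    ∀ c : ℝ, 3 / 4 ≤ c → c ≤ 1 → ∀ w r : ℝ, 0 < r → |w| + r ≤ 3 / 8 →
    ∀ u : ℝ, |u| ≤ 3 / 8 → |u - w| ≤ 8 * r →
      |rt a b c u| ≤ C / r * ∫ v in Icc (w - r) (w + r), |rt a b c v| ∧
      |deriv (rt a b c) u| ≤ C / r ^ 2 * ∫ v in Icc (w - r) (w + r), |rt a b c v|)
    (h2 : S_hh) {A B : MvPolynomial (Fin 2) ℝ} (hA : A.totalDegree ≤ D) (hB : B.totalDegree ≤ D)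
    {s : ℝ} (hs : |s| ≤ 3 / 8) {w r : ℝ} (hr : 0 < r) (hw : |w| + r ≤ 3 / 8) {u : ℝ}
    (hu : |u| ≤ 3 / 8) (huw : |u - w| ≤ 8 * r) :
    |sf A B (s, u)| ≤ C / r * (∫ v in Icc (w - r) (w + r), |sf A B (s, v)|) ∧
    |d2 (sf A B) (s, u)| ≤ C / r ^ 2 * ∫ v in Icc (w - r) (w + r), |sf A B (s, v)| := by
  have h3 := h1 (sb2 A s) (sb2 B s) (sb2_deg hA s) (sb2_deg hB s) (1 - s ^ 2) (c_bd hs).1
    (c_bd hs).2 w r hr hw u hu huw
  have e1 : (∫ v in Icc (w - r) (w + r), |rt (sb2 A s) (sb2 B s) (1 - s ^ 2) v|) =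
      ∫ v in Icc (w - r) (w + r), |sf A B (s, v)| := by
    refine setIntegral_congr_fun measurableSet_Icc fun v hv => ?_
    rw [sf_rt2 h2 A B s v (mem_U0 hs (abs_in hw hv))]
  have hU : ((s, u) : ℝ × ℝ) ∈ U0 := mem_U0 hs hu
  have e2 : d2 (sf A B) (s, u) = deriv (rt (sb2 A s) (sb2 B s) (1 - s ^ 2)) u := by
    unfold d2
    refine Filter.EventuallyEq.deriv_eq ?_
    have hc : Continuous fun x : ℝ => ((s, x) : ℝ × ℝ) := by fun_prop
    have h4 : ∀ᶠ x in 𝓝 u, ((s, x) : ℝ × ℝ) ∈ U0 :=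
      hc.continuousAt.eventually (h2.2.2.1.mem_nhds hU)
    filter_upwards [h4] with x hx
    exact sf_rt2 h2 A B s x hx
  rw [e1] at h3
  rw [e2, sf_rt2 h2 A B s u hU]
  exact h3

/-- **srem** -/
theorem srem_thm (h1 : S_srem1) (h2 : S_hh) (h3 : S_dpf) : S_srem := by
  intro D
  obtain ⟨C, hC, hC1⟩ := h1 D
  refine ⟨C ^ 2, sq_nonneg C, ?_⟩
  intro A B hA hB w r hr hw1 hw2 y hyD hyb
  set f := sf A B with hf
  have hfc : Continuous f := by
    have a1 := (h3 A).1.continuous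
    have a2 := (h3 B).1.continuous
    have a3 := h2.1.continuous
    exact a1.add (a2.mul a3)
  have hfa : Continuous fun z : ℝ × ℝ => |f z| := hfc.abs
  set I1 := Icc (w.1 - r) (w.1 + r) with hI1
  set I2 := Icc (w.2 - r) (w.2 + r) with hI2
  have hbox : box w r = I1 ×ˢ I2 := rfl
  have hint : IntegrableOn (fun z : ℝ × ℝ => |f z|) (I1 ×ˢ I2) :=
    hfa.continuousOn.integrableOn_compact (isCompact_Icc.prod isCompact_Icc)
  have hprod : (∫ v in box w r, |f v|) = ∫ v1 in I1, ∫ v2 in I2, |f (v1, v2)| := by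
    rw [hbox]
    exact setIntegral_prod (fun z : ℝ × ℝ => |f z|) hint
  have hint' : Integrable (fun z : ℝ × ℝ => |f z|)
      ((volume.restrict I1).prod (volume.restrict I2)) := by
    rw [Measure.prod_restrict]; exact hint
  have hswap : (∫ v1 in I1, ∫ v2 in I2, |f (v1, v2)|) = ∫ v2 in I2, ∫ v1 in I1, |f (v1, v2)| :=
    integral_integral_swap (f := fun v1 v2 => |f (v1, v2)|) hint'
  -- the point
  have hy1 : |y.1| ≤ 3 / 8 := by
    have := hyD.1
    simp only [Prod.fst_zero] at this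
    rw [abs_le]; constructor <;> linarith [this.1, this.2]
  have hy2 : |y.2| ≤ 3 / 8 := by
    have := hyD.2
    simp only [Prod.snd_zero] at this
    rw [abs_le]; constructor <;> linarith [this.1, this.2]
  have hyw1 : |y.1 - w.1| ≤ 8 * r := by
    have := hyb.1
    rw [abs_le]; constructor <;> linarith [this.1, this.2]
  have hyw2 : |y.2 - w.2| ≤ 8 * r := by
    have := hyb.2
    rw [abs_le]; constructor <;> linarith [this.1, this.2]
  -- inner bounds
  have b1 : (∫ v1 in I1, |f (v1, y.2)|) ≤ C / r * ∫ v in box w r, |f v| := by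
    rw [hprod, ← integral_const_mul]
    refine setIntegral_mono_on ?_ ?_ measurableSet_Icc fun v1 hv1 => ?_
    · exact (Continuous.integrableOn_Icc (by fun_prop))
    · exact (hint'.integral_prod_left).const_mul _
    · exact (col hC1 h2 hA hB (abs_in hw1 hv1) hr hw2 hy2 hyw2).1
  have b2 : (∫ v2 in I2, |f (y.1, v2)|) ≤ C / r * ∫ v in box w r, |f v| := by
    rw [hprod, hswap, ← integral_const_mul]
    refine setIntegral_mono_on ?_ ?_ measurableSet_Icc fun v2 hv2 => ?_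
    · exact (Continuous.integrableOn_Icc (by fun_prop))
    · exact (hint'.integral_prod_right).const_mul _
    · exact (row hC1 h2 hA hB (abs_in hw2 hv2) hr hw1 hy1 hyw1).1
  obtain ⟨r1, r2⟩ := row hC1 h2 hA hB hy2 hr hw1 hy1 hyw1
  obtain ⟨-, r3⟩ := col hC1 h2 hA hB hy1 hr hw2 hy2 hyw2
  have hCr : 0 ≤ C / r := div_nonneg hC hr.le
  have hCr2 : 0 ≤ C / r ^ 2 := div_nonneg hC (sq_nonneg _)
  refine ⟨?_, ?_, ?_⟩
  · refine r1.trans ((mul_le_mul_of_nonneg_left b1 hCr).trans (le_of_eq ?_))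
    field_simp
  · refine r2.trans ((mul_le_mul_of_nonneg_left b1 hCr2).trans (le_of_eq ?_))
    field_simp
  · refine r3.trans ((mul_le_mul_of_nonneg_left b2 hCr2).trans (le_of_eq ?_))
    field_simp

end Pool.Agent.W770.PC
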